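import Mathlib

set_option autoImplicit false

namespace Pool.Agent.Proj2

/-- Projection to the X-axis. -/
def pr1 (S : Set (ℝ × ℝ)) : Set (ℝ × ℝ) := {p | p.2 = 0 ∧ ∃ y : ℝ, (p.1, y) ∈ S}

/-- Projection to the Y-axis. -/
def pr2 (S : Set (ℝ × ℝ)) : Set (ℝ × ℝ) := {p | p.1 = 0 ∧ ∃ x : ℝ, (x, p.2) ∈ S}

/-- The X-axis. -/
def xAxis : Set (ℝ × ℝ) := {p | p.2 = 0}

/-- The Y-axis. -/
def yAxis : Set (ℝ × ℝ) := {p | p.1 = 0}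

/-- The product of a subset of the X-axis and a subset of the Y-axis. -/
def rect (A B : Set (ℝ × ℝ)) : Set (ℝ × ℝ) := {p | (p.1, (0 : ℝ)) ∈ A ∧ ((0 : ℝ), p.2) ∈ B}

/-- Projective algebras of plane sets. -/
structure IsProjAlg (F : Set (Set (ℝ × ℝ))) : Prop where
  compl : ∀ S ∈ F, Sᶜ ∈ F
  union : ∀ S ∈ F, ∀ T ∈ F, S ∪ T ∈ F
  pr1 : ∀ S ∈ F, pr1 S ∈ F
  pr2 : ∀ S ∈ F, pr2 S ∈ F
  rect : ∀ A ∈ F, ∀ B ∈ F, A ⊆ xAxis → B ⊆ yAxis → rect A B ∈ F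

/-- The projective algebra generated by a family of plane sets. -/
def gen (G : Set (Set (ℝ × ℝ))) : Set (Set (ℝ × ℝ)) := ⋂₀ {F | IsProjAlg F ∧ G ⊆ F}

/-- A bijection commuting with complement, union, both projections and products. -/
structure IsIso {F G : Set (Set (ℝ × ℝ))} (e : F ≃ G) : Prop where
  compl : ∀ S T : F, (T : Set (ℝ × ℝ)) = (S : Set (ℝ × ℝ))ᶜ →
    (e T : Set (ℝ × ℝ)) = (e S : Set (ℝ × ℝ))ᶜ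
  union : ∀ S T U : F, (U : Set (ℝ × ℝ)) = (S : Set (ℝ × ℝ)) ∪ (T : Set (ℝ × ℝ)) →
    (e U : Set (ℝ × ℝ)) = (e S : Set (ℝ × ℝ)) ∪ (e T : Set (ℝ × ℝ))
  pr1 : ∀ S T : F, (T : Set (ℝ × ℝ)) = pr1 (S : Set (ℝ × ℝ)) →
    (e T : Set (ℝ × ℝ)) = Proj2.pr1 (e S : Set (ℝ × ℝ))
  pr2 : ∀ S T : F, (T : Set (ℝ × ℝ)) = pr2 (S : Set (ℝ × ℝ)) →
    (e T : Set (ℝ × ℝ)) = Proj2.pr2 (e S : Set (ℝ × ℝ))
  rect : ∀ A B C : F, (A : Set (ℝ × ℝ)) ⊆ xAxis → (B : Set (ℝ × ℝ)) ⊆ yAxis →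
    (C : Set (ℝ × ℝ)) = rect (A : Set (ℝ × ℝ)) (B : Set (ℝ × ℝ)) →
    (e C : Set (ℝ × ℝ)) = Proj2.rect (e A : Set (ℝ × ℝ)) (e B : Set (ℝ × ℝ))

/-- The projective algebras generated by `k` plane sets. -/
def ProjAlg (k : ℕ) : Type :=
  {F : Set (Set (ℝ × ℝ)) // ∃ g : Fin k → Set (ℝ × ℝ), F = gen (Set.range g)}

/-- Isomorphism of projective algebras. -/
def Isomorphic {k : ℕ} (F G : ProjAlg k) : Prop := ∃ e : F.1 ≃ G.1, IsIso e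

end Pool.Agent.Proj2
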