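import Mathlib
import Pool.Agent.Proj2.Defs

set_option autoImplicit false

open Set Cardinal

namespace Pool.Agent.Proj2

abbrev PS := Set (ℝ × ℝ)

theorem gen_isProjAlg (G : Set PS) : IsProjAlg (gen G) where
  compl S hS F hF := hF.1.compl S (hS F hF)
  union S hS T hT F hF := hF.1.union S (hS F hF) T (hT F hF)
  pr1 S hS F hF := hF.1.pr1 S (hS F hF)
  pr2 S hS F hF := hF.1.pr2 S (hS F hF)
  rect A hA B hB h1 h2 F hF := hF.1.rect A (hA F hF) B (hB F hF) h1 h2

theorem subset_gen (G : Set PS) : G ⊆ gen G := fun _ hS _ hF => hF.2 hS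

section basics
variable {F : Set PS} (hF : IsProjAlg F)
include hF

theorem univ_mem {S : PS} (hS : S ∈ F) : (univ : PS) ∈ F := by
  have := hF.union S hS _ (hF.compl S hS)
  rwa [union_compl_self] at this

theorem inter_mem {S T : PS} (hS : S ∈ F) (hT : T ∈ F) : S ∩ T ∈ F := by
  have := hF.compl _ (hF.union _ (hF.compl S hS) _ (hF.compl T hT))
  rwa [compl_union, compl_compl, compl_compl] at this

theorem diff_mem {S T : PS} (hS : S ∈ F) (hT : T ∈ F) : S \ T ∈ F := by
  rw [diff_eq]; exact inter_mem hF hS (hF.compl T hT)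

theorem empty_mem {S : PS} (hS : S ∈ F) : (∅ : PS) ∈ F := by
  have := hF.compl _ (univ_mem hF hS)
  rwa [compl_univ] at this

end basics

theorem pr1_univ : pr1 univ = xAxis := by
  ext p; simp [pr1, xAxis]

theorem pr2_univ : pr2 univ = yAxis := by
  ext p; simp [pr2, yAxis]

theorem x_mem {F : Set PS} (hF : IsProjAlg F) {S : PS} (hS : S ∈ F) : xAxis ∈ F := by
  rw [← pr1_univ]; exact hF.pr1 _ (univ_mem hF hS)

theorem y_mem {F : Set PS} (hF : IsProjAlg F) {S : PS} (hS : S ∈ F) : yAxis ∈ F := by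
  rw [← pr2_univ]; exact hF.pr2 _ (univ_mem hF hS)

/-- total product -/
theorem rect_inter (A B : PS) : rect (A ∩ xAxis) (B ∩ yAxis) = rect A B := by
  ext p; simp [rect, xAxis, yAxis]

theorem rect_mem {F : Set PS} (hF : IsProjAlg F) {A B : PS} (hA : A ∈ F) (hB : B ∈ F) :
    rect A B ∈ F := by
  rw [← rect_inter]
  exact hF.rect _ (inter_mem hF hA (x_mem hF hA)) _ (inter_mem hF hB (y_mem hF hA))
    inter_subset_right inter_subset_right

/-- `e` sends `A` to `B` -/
def R {F G : Set PS} (e : F ≃ G) (A B : PS) : Prop := ∃ h : A ∈ F, (e ⟨A, h⟩ : PS) = B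

section iso
variable {F G : Set PS} (hF : IsProjAlg F) {e : F ≃ G} (he : IsIso e)
include hF he

theorem R.compl {A B : PS} (h : R e A B) : R e Aᶜ Bᶜ := by
  obtain ⟨hA, rfl⟩ := h
  exact ⟨hF.compl A hA, he.compl ⟨A, hA⟩ ⟨Aᶜ, _⟩ rfl⟩

theorem R.union {A B A' B' : PS} (h : R e A B) (h' : R e A' B') : R e (A ∪ A') (B ∪ B') := by
  obtain ⟨hA, rfl⟩ := h
  obtain ⟨hA', rfl⟩ := h'
  exact ⟨hF.union A hA A' hA', he.union ⟨A, hA⟩ ⟨A', hA'⟩ ⟨_, _⟩ rfl⟩

theorem R.inter {A B A' B' : PS} (h : R e A B) (h' : R e A' B') : R e (A ∩ A') (B ∩ B') := by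
  have := ((h.compl hF he).union hF he (h'.compl hF he)).compl hF he
  rwa [compl_union, compl_union, compl_compl, compl_compl, compl_compl, compl_compl] at this

theorem R.diff {A B A' B' : PS} (h : R e A B) (h' : R e A' B') : R e (A \ A') (B \ B') := by
  rw [diff_eq, diff_eq]
  exact h.inter hF he (h'.compl hF he)

theorem R.univ {A B : PS} (h : R e A B) : R e univ univ := by
  have := h.union hF he (h.compl hF he)
  rwa [union_compl_self, union_compl_self] at this

theorem R.empty {A B : PS} (h : R e A B) : R e ∅ ∅ := by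
  have := (h.univ hF he).compl hF he
  rwa [compl_univ] at this

theorem R.pr1 {A B : PS} (h : R e A B) : R e (pr1 A) (pr1 B) := by
  obtain ⟨hA, rfl⟩ := h
  exact ⟨hF.pr1 A hA, he.pr1 ⟨A, hA⟩ ⟨_, _⟩ rfl⟩

theorem R.pr2 {A B : PS} (h : R e A B) : R e (pr2 A) (pr2 B) := by
  obtain ⟨hA, rfl⟩ := h
  exact ⟨hF.pr2 A hA, he.pr2 ⟨A, hA⟩ ⟨_, _⟩ rfl⟩

theorem R.x {A B : PS} (h : R e A B) : R e xAxis xAxis := by
  have := (h.univ hF he).pr1 hF he
  rwa [pr1_univ] at this

theorem R.y {A B : PS} (h : R e A B) : R e yAxis yAxis := by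
  have := (h.univ hF he).pr2 hF he
  rwa [pr2_univ] at this

theorem R.rect {A B A' B' : PS} (h : R e A B) (h' : R e A' B') : R e (rect A A') (rect B B') := by
  have h1 := h.inter hF he (h.x hF he)
  have h2 := h'.inter hF he (h.y hF he)
  rw [← rect_inter A A', ← rect_inter B B']
  obtain ⟨hA, h3⟩ := h1
  obtain ⟨hA', h4⟩ := h2
  refine ⟨hF.rect _ hA _ hA' inter_subset_right inter_subset_right, ?_⟩
  rw [← h3, ← h4]
  exact he.rect ⟨_, hA⟩ ⟨_, hA'⟩ ⟨_, _⟩ inter_subset_right inter_subset_right rfl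

end iso

theorem R.inj {F G : Set PS} {e : F ≃ G} {A A' B : PS} (h : R e A B) (h' : R e A' B) : A = A' := by
  obtain ⟨hA, h1⟩ := h
  obtain ⟨hA', h2⟩ := h'
  have : e ⟨A, hA⟩ = e ⟨A', hA'⟩ := Subtype.ext (h1.trans h2.symm)
  exact congrArg Subtype.val (e.injective this)

theorem R.fun_ {F G : Set PS} {e : F ≃ G} {A B B' : PS} (h : R e A B) (h' : R e A B') : B = B' := by
  obtain ⟨hA, h1⟩ := h
  obtain ⟨hA', h2⟩ := h'
  exact h1.symm.trans h2

theorem IsIso.symm {F G : Set PS} (hF : IsProjAlg F) {e : F ≃ G} (he : IsIso e) :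
    IsIso e.symm := by
  have hR : ∀ S : G, R e (e.symm S) S := fun S => ⟨(e.symm S).2, by simp⟩
  refine ⟨?_, ?_, ?_, ?_, ?_⟩
  · intro S T h
    have h1 := (hR S).compl hF he
    rw [← h] at h1
    exact (hR T).inj h1
  · intro S T U h
    have h1 := (hR S).union hF he (hR T)
    rw [← h] at h1
    exact (hR U).inj h1
  · intro S T h
    have h1 := (hR S).pr1 hF he
    rw [← h] at h1
    exact (hR T).inj h1
  · intro S T h
    have h1 := (hR S).pr2 hF he
    rw [← h] at h1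
    exact (hR T).inj h1
  · intro A B C _ _ h
    have h1 := (hR A).rect hF he (hR B)
    rw [← h] at h1
    exact (hR C).inj h1

theorem IsIso.refl (F : Set PS) : IsIso (Equiv.refl F) :=
  ⟨fun _ _ h => h, fun _ _ _ h => h, fun _ _ h => h, fun _ _ h => h, fun _ _ _ _ _ h => h⟩

theorem IsIso.trans {F G H : Set PS} (hF : IsProjAlg F) (hG : IsProjAlg G) {e : F ≃ G}
    (he : IsIso e) {e' : G ≃ H} (he' : IsIso e') : IsIso (e.trans e') := by
  have hR : ∀ S : F, R e S (e S) := fun S => ⟨S.2, rfl⟩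
  have hR' : ∀ S : G, R e' S (e' S) := fun S => ⟨S.2, rfl⟩
  have hval : ∀ (S : F) (B : PS), R e' (e S) B → ((e.trans e') S : PS) = B := by
    intro S B h
    exact (hR' (e S)).fun_ h
  refine ⟨?_, ?_, ?_, ?_, ?_⟩
  · intro S T h
    apply hval
    have h1 := (hR S).compl hF he
    rw [← h] at h1
    rw [(hR T).fun_ h1]
    exact (hR' (e S)).compl hG he'
  · intro S T U h
    apply hval
    have h1 := (hR S).union hF he (hR T)
    rw [← h] at h1
    rw [(hR U).fun_ h1]
    exact (hR' (e S)).union hG he' (hR' (e T))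
  · intro S T h
    apply hval
    have h1 := (hR S).pr1 hF he
    rw [← h] at h1
    rw [(hR T).fun_ h1]
    exact (hR' (e S)).pr1 hG he'
  · intro S T h
    apply hval
    have h1 := (hR S).pr2 hF he
    rw [← h] at h1
    rw [(hR T).fun_ h1]
    exact (hR' (e S)).pr2 hG he'
  · intro A B C _ _ h
    apply hval
    have h1 := (hR A).rect hF he (hR B)
    rw [← h] at h1
    rw [(hR C).fun_ h1]
    exact (hR' (e A)).rect hG he' (hR' (e B))

theorem ProjAlg.isProjAlg {k : ℕ} (F : ProjAlg k) : IsProjAlg F.1 := by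
  obtain ⟨F, g, rfl⟩ := F
  exact gen_isProjAlg _

/-- the isomorphism relation is an equivalence relation -/
theorem iso_equivalence (k : ℕ) : Equivalence (Isomorphic (k := k)) := by
    refine ⟨fun F => ⟨Equiv.refl _, IsIso.refl _⟩, ?_, ?_⟩
    · rintro F G ⟨e, he⟩; exact ⟨e.symm, he.symm F.isProjAlg⟩
    · rintro F G H ⟨e, he⟩ ⟨e', he'⟩; exact ⟨e.trans e', he.trans F.isProjAlg G.isProjAlg he'⟩

end Pool.Agent.Proj2
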