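import Mathlib
import Pool.Agent.Proj2.Iso

set_option autoImplicit false

open Set Cardinal

namespace Pool.Agent.Proj2

/-- the isomorphism relation as a setoid -/
def isoSetoid (k : ℕ) : Setoid (ProjAlg k) where
  r := Isomorphic
  iseqv := iso_equivalence k

/-- terms -/
inductive Term (k : ℕ) : Type
  | var : Fin k → Term k
  | compl : Term k → Term k
  | union : Term k → Term k → Term k
  | p1 : Term k → Term k
  | p2 : Term k → Term k
  | rect : Term k → Term k → Term k
  deriving Countable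

def eval {k : ℕ} (g : Fin k → PS) : Term k → PS
  | .var i => g i
  | .compl t => (eval g t)ᶜ
  | .union s t => eval g s ∪ eval g t
  | .p1 t => pr1 (eval g t)
  | .p2 t => pr2 (eval g t)
  | .rect s t => Proj2.rect (eval g s) (eval g t)

theorem eval_mem {k : ℕ} (g : Fin k → PS) {F : Set PS} (hF : IsProjAlg F) (hg : range g ⊆ F)
    (t : Term k) : eval g t ∈ F := by
  induction t with
  | var i => exact hg ⟨i, rfl⟩
  | compl t ih => exact hF.compl _ ih
  | union s t ihs iht => exact hF.union _ ihs _ iht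
  | p1 t ih => exact hF.pr1 _ ih
  | p2 t ih => exact hF.pr2 _ ih
  | rect s t ihs iht => exact rect_mem hF ihs iht

theorem range_eval {k : ℕ} (g : Fin k → PS) : range (eval g) = gen (range g) := by
  apply Subset.antisymm
  · rintro _ ⟨t, rfl⟩
    exact eval_mem g (gen_isProjAlg _) (subset_gen _) t
  · intro S hS
    refine hS (range (eval g)) ⟨⟨?_, ?_, ?_, ?_, ?_⟩, ?_⟩
    · rintro _ ⟨t, rfl⟩; exact ⟨.compl t, rfl⟩
    · rintro _ ⟨t, rfl⟩ _ ⟨s, rfl⟩; exact ⟨.union t s, rfl⟩
    · rintro _ ⟨t, rfl⟩; exact ⟨.p1 t, rfl⟩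
    · rintro _ ⟨t, rfl⟩; exact ⟨.p2 t, rfl⟩
    · rintro _ ⟨t, rfl⟩ _ ⟨s, rfl⟩ _ _; exact ⟨.rect t s, rfl⟩
    · rintro _ ⟨i, rfl⟩; exact ⟨.var i, rfl⟩

/-- equal equational type implies isomorphic -/
theorem iso_of_type {k : ℕ} (g g' : Fin k → PS)
    (h : ∀ s t, eval g s = eval g t ↔ eval g' s = eval g' t) :
    ∃ e : gen (range g) ≃ gen (range g'), IsIso e := by
  classical
  have h1 : ∀ S : gen (range g), ∃ t, eval g t = S := by
    intro S
    have : (S : PS) ∈ range (eval g) := by rw [range_eval]; exact S.2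
    exact this
  have h2 : ∀ S : gen (range g'), ∃ t, eval g' t = S := by
    intro S
    have : (S : PS) ∈ range (eval g') := by rw [range_eval]; exact S.2
    exact this
  choose c hc using h1
  choose c' hc' using h2
  have hm : ∀ t, eval g t ∈ gen (range g) := fun t => by rw [← range_eval]; exact ⟨t, rfl⟩
  have hm' : ∀ t, eval g' t ∈ gen (range g') := fun t => by rw [← range_eval]; exact ⟨t, rfl⟩
  let e : gen (range g) ≃ gen (range g') :=
    { toFun := fun S => ⟨eval g' (c S), hm' _⟩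
      invFun := fun S => ⟨eval g (c' S), hm _⟩
      left_inv := by
        intro S
        apply Subtype.ext
        show eval g (c' ⟨eval g' (c S), _⟩) = S
        rw [← hc S, h]
        rw [hc']
      right_inv := by
        intro S
        apply Subtype.ext
        show eval g' (c ⟨eval g (c' S), _⟩) = S
        rw [← hc' S, ← h]
        rw [hc] }
  have he : ∀ (S : gen (range g)) (t : Term k), eval g t = S → (e S : PS) = eval g' t := by
    intro S t ht
    show eval g' (c S) = eval g' t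
    rw [← h, hc, ht]
  refine ⟨e, ?_, ?_, ?_, ?_, ?_⟩
  · intro S T hST
    rw [he T (.compl (c S)) (by rw [hST, ← hc S]; rfl)]
    rfl
  · intro S T U hU
    rw [he U (.union (c S) (c T)) (by rw [hU, ← hc S, ← hc T]; simp [eval, hc])]
    rfl
  · intro S T hST
    rw [he T (.p1 (c S)) (by rw [hST, ← hc S]; simp [eval, hc])]
    rfl
  · intro S T hST
    rw [he T (.p2 (c S)) (by rw [hST, ← hc S]; simp [eval, hc])]
    rfl
  · intro A B C _ _ hC
    rw [he C (.rect (c A) (c B)) (by rw [hC, ← hc A, ← hc B]; simp [eval, hc])]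
    rfl

theorem upper (k : ℕ) : #(Quotient (isoSetoid k)) ≤ 𝔠 := by
  classical
  have h1 : ∀ F : ProjAlg k, ∃ g : Fin k → PS, F.1 = gen (range g) := fun F => F.2
  choose g hg using h1
  let inv : Quotient (isoSetoid k) → Set (Term k × Term k) := fun q =>
    {p | eval (g q.out) p.1 = eval (g q.out) p.2}
  have hinj : Function.Injective inv := by
    intro q q' h
    rw [← Quotient.out_eq q, ← Quotient.out_eq q']
    apply Quotient.sound
    have h2 : ∀ s t, eval (g q.out) s = eval (g q.out) t ↔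
        eval (g q'.out) s = eval (g q'.out) t := by
      intro s t
      have : (s, t) ∈ inv q ↔ (s, t) ∈ inv q' := by rw [h]
      exact this
    obtain ⟨e, he⟩ := iso_of_type _ _ h2
    show ∃ e : q.out.1 ≃ q'.out.1, IsIso e
    rw [hg q.out, hg q'.out]
    exact ⟨e, he⟩
  refine (mk_le_of_injective hinj).trans ?_
  rw [mk_set, ← two_power_aleph0]
  exact power_le_power_left two_ne_zero mk_le_aleph0

/-- navigation along the coding set -/
def nav (S : PS) : ℕ → PS × PS
  | 0 => (xAxis ∩ yAxis, ∅)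
  | n + 1 =>
    let Q := pr2 (S ∩ rect (nav S n).1 yAxis) \ ((nav S n).2 ∪ (xAxis ∩ yAxis))
    (pr1 (S ∩ rect xAxis Q) \ (nav S n).1, Q)

theorem R.nav {F G : Set PS} (hF : IsProjAlg F) {e : F ≃ G} (he : IsIso e) {S T : PS}
    (h : R e S T) (n : ℕ) : R e (nav S n).1 (nav T n).1 ∧ R e (nav S n).2 (nav T n).2 := by
  induction n with
  | zero => exact ⟨(h.x hF he).inter hF he (h.y hF he), h.empty hF he⟩
  | succ n ih =>
    have hQ : R e (Proj2.nav S (n + 1)).2 (Proj2.nav T (n + 1)).2 := by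
      show R e (Proj2.pr2 (S ∩ Proj2.rect (Proj2.nav S n).1 yAxis) \ _)
        (Proj2.pr2 (T ∩ Proj2.rect (Proj2.nav T n).1 yAxis) \ _)
      exact ((h.inter hF he (ih.1.rect hF he (h.y hF he))).pr2 hF he).diff hF he
        (ih.2.union hF he ((h.x hF he).inter hF he (h.y hF he)))
    refine ⟨?_, hQ⟩
    show R e (Proj2.pr1 (S ∩ Proj2.rect xAxis (Proj2.nav S (n + 1)).2) \ (Proj2.nav S n).1)
      (Proj2.pr1 (T ∩ Proj2.rect xAxis (Proj2.nav T (n + 1)).2) \ (Proj2.nav T n).1)
    exact ((h.inter hF he ((h.x hF he).rect hF he hQ)).pr1 hF he).diff hF he ih.1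

/-- the coding set -/
def SZ (Z : Set ℕ) : PS :=
  {p | (∃ n : ℕ, p = ((n : ℝ), (n : ℝ) + 1)) ∨ (∃ n : ℕ, p = ((n : ℝ) + 1, (n : ℝ) + 1)) ∨
    (∃ n ∈ Z, p = ((n : ℝ) + 1, 0))}

theorem nav_SZ (Z : Set ℕ) (n : ℕ) : (nav (SZ Z) n).1 = {((n : ℝ), (0 : ℝ))} ∧
    (nav (SZ Z) n).2 = if n = 0 then ∅ else {((0 : ℝ), (n : ℝ))} := by
  induction n with
  | zero =>
    refine ⟨?_, rfl⟩
    ext ⟨x, y⟩
    simp only [nav, xAxis, yAxis, mem_inter_iff, mem_setOf_eq, mem_singleton_iff, Prod.mk.injEq,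
      Nat.cast_zero]
    exact and_comm
  | succ n ih =>
    have hQ : (nav (SZ Z) (n + 1)).2 = {((0 : ℝ), ((n + 1 : ℕ) : ℝ))} := by
      show pr2 (SZ Z ∩ rect (nav (SZ Z) n).1 yAxis) \ ((nav (SZ Z) n).2 ∪ (xAxis ∩ yAxis)) = _
      rw [ih.1, ih.2]
      ext ⟨x, y⟩
      simp only [pr2, rect, SZ, xAxis, yAxis, mem_diff, mem_setOf_eq, mem_inter_iff, mem_union,
        mem_singleton_iff, Prod.mk.injEq]
      constructor
      · rintro ⟨⟨hx, x', hS, ⟨hx', _⟩, _⟩, hnot⟩
        refine ⟨hx, ?_⟩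
        rcases hS with ⟨m, hm1, hm2⟩ | ⟨m, hm1, hm2⟩ | ⟨m, _, hm1, hm2⟩
        · have : (m : ℝ) = n := by rw [← hm1, hx']
          push_cast; rw [hm2, this]
        · exfalso
          have h1 : (n : ℝ) = m + 1 := by rw [← hx', hm1]
          have h2 : n = m + 1 := by exact_mod_cast h1
          apply hnot
          left
          rw [if_neg (by omega)]
          simp only [mem_singleton_iff, Prod.mk.injEq]
          exact ⟨hx, by rw [hm2, h1]⟩
        · exfalso
          exact hnot (Or.inr ⟨hm2, hx⟩)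
      · rintro ⟨hx, hy⟩
        refine ⟨⟨hx, (n : ℝ), Or.inl ⟨n, rfl, by rw [hy]; push_cast; rfl⟩, by simp⟩, ?_⟩
        rintro (h | ⟨h, _⟩)
        · by_cases hn : n = 0
          · rw [if_pos hn] at h; exact h
          · rw [if_neg hn] at h
            simp only [mem_singleton_iff, Prod.mk.injEq] at h
            rw [hy] at h
            have h3 := h.2
            push_cast at h3
            linarith
        · rw [hy] at h
          have : ((n + 1 : ℕ) : ℝ) ≠ 0 := by exact_mod_cast Nat.succ_ne_zero n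
          exact this h
    refine ⟨?_, by rw [hQ, if_neg (Nat.succ_ne_zero n)]⟩
    show pr1 (SZ Z ∩ rect xAxis (nav (SZ Z) (n + 1)).2) \ (nav (SZ Z) n).1 = _
    rw [hQ, ih.1]
    ext ⟨x, y⟩
    simp only [pr1, rect, SZ, xAxis, mem_diff, mem_setOf_eq, mem_inter_iff,
      mem_singleton_iff, Prod.mk.injEq]
    constructor
    · rintro ⟨⟨hy, y', hS, _, ⟨_, hy'⟩⟩, hnot⟩
      refine ⟨?_, hy⟩
      push_cast at hy'
      rcases hS with ⟨m, hm1, hm2⟩ | ⟨m, hm1, hm2⟩ | ⟨m, _, hm1, hm2⟩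
      · exfalso
        apply hnot
        refine ⟨?_, hy⟩
        rw [hm1]; linarith
      · rw [hm1]; push_cast; linarith
      · exfalso
        have : (0 : ℝ) ≤ n := Nat.cast_nonneg n
        linarith
    · rintro ⟨hx, hy⟩
      push_cast at hx
      refine ⟨⟨hy, (n : ℝ) + 1, Or.inr (Or.inl ⟨n, hx, rfl⟩), by simp⟩, ?_⟩
      rintro ⟨h, _⟩
      linarith

theorem decode (Z : Set ℕ) (n : ℕ) : n ∈ Z ↔ SZ Z ∩ (nav (SZ Z) (n + 1)).1 ≠ ∅ := by
  rw [(nav_SZ Z (n + 1)).1, ← nonempty_iff_ne_empty]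
  constructor
  · intro h
    refine ⟨_, Or.inr (Or.inr ⟨n, h, rfl⟩), ?_⟩
    push_cast; rfl
  · rintro ⟨p, hp, hp2⟩
    rw [mem_singleton_iff] at hp2
    subst hp2
    push_cast at hp
    rcases hp with ⟨m, hm⟩ | ⟨m, hm⟩ | ⟨m, hmZ, hm⟩
    · rw [Prod.mk.injEq] at hm
      exfalso
      have : (0 : ℝ) ≤ m := Nat.cast_nonneg m
      linarith [hm.2]
    · rw [Prod.mk.injEq] at hm
      exfalso
      have : (0 : ℝ) ≤ m := Nat.cast_nonneg m
      linarith [hm.2]
    · rw [Prod.mk.injEq] at hm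
      have : (n : ℝ) = m := by linarith [hm.1]
      have : n = m := by exact_mod_cast this
      rw [this]; exact hmZ

theorem lower (k : ℕ) (hk : 1 ≤ k) : 𝔠 ≤ #(Quotient (isoSetoid k)) := by
  classical
  by_contra hlt
  rw [not_le] at hlt
  let i0 : Fin k := ⟨0, hk⟩
  let A : Set ℕ → ProjAlg k := fun Z => ⟨gen (range fun _ : Fin k => SZ Z), _, rfl⟩
  have hmem : ∀ Z, SZ Z ∈ (A Z).1 := fun Z => subset_gen _ ⟨i0, rfl⟩
  let q : Set ℕ → Quotient (isoSetoid k) := fun Z => Quotient.mk _ (A Z)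
  have h1 : ∀ Z, ∃ e : (A Z).1 ≃ (q Z).out.1, IsIso e := by
    intro Z
    have : (isoSetoid k).r (A Z) (q Z).out := by
      have := Quotient.mk_out (s := isoSetoid k) (A Z)
      exact (isoSetoid k).symm this
    exact this
  choose e he using h1
  choose g hg using fun F : ProjAlg k => F.2
  have h2 : ∀ Z, ∃ t : Term k, eval (g (q Z).out) t = e Z ⟨SZ Z, hmem Z⟩ := by
    intro Z
    have h3 : ((e Z ⟨SZ Z, hmem Z⟩ : _) : PS) ∈ range (eval (g (q Z).out)) := by
      rw [range_eval, ← hg]; exact Subtype.prop _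
    exact h3
  choose t ht using h2
  have hinj : Function.Injective (fun Z : Set ℕ => ((q Z, t Z) : Quotient (isoSetoid k) × Term k)) := by
    intro Z Z' h
    rw [Prod.mk.injEq] at h
    have hs : (e Z ⟨SZ Z, hmem Z⟩ : PS) = (e Z' ⟨SZ Z', hmem Z'⟩ : PS) := by
      rw [← ht Z, ← ht Z', h.1, h.2]
    have key : ∀ W, ∀ n, n ∈ W ↔ (e W ⟨SZ W, hmem W⟩ : PS) ∩
        (nav (e W ⟨SZ W, hmem W⟩ : PS) (n + 1)).1 ≠ ∅ := by
      intro W n
      have hR : R (e W) (SZ W) (e W ⟨SZ W, hmem W⟩ : PS) := ⟨hmem W, rfl⟩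
      have hP := (A W).isProjAlg
      have h4 := hR.inter hP (he W) (hR.nav hP (he W) (n + 1)).1
      have h5 := hR.empty hP (he W)
      rw [decode]
      apply not_congr
      constructor
      · intro h6; rw [h6] at h4; exact h4.fun_ h5
      · intro h6; rw [h6] at h4; exact h4.inj h5
    ext n
    rw [key Z n, key Z' n, hs]
  have h3 := mk_le_of_injective hinj
  rw [mk_prod, mk_set, mk_nat, two_power_aleph0] at h3
  simp only [lift_id] at h3
  have h4 : #(Term k) < 𝔠 := lt_of_le_of_lt mk_le_aleph0 aleph0_lt_continuum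
  exact absurd h3 (not_le.2 (mul_lt_of_lt aleph0_le_continuum hlt h4))

end Pool.Agent.Proj2
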